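import Pool.Agent.L7h95.DG.ConeTri

/-!
# The mean number of cone times of the infinite half-plane self-avoiding walk on the square and
triangular grids grows at most logarithmically
-/

set_option autoImplicit false

namespace Pool.Agent.Results.MP_df1d0b_pr.ConeTimes

open Filter Topology MeasureTheory
open scoped ENNReal

/-- `e^{iπ/3}` -/
noncomputable def Om : ℂ := ⟨1 / 2, Real.sqrt 3 / 2⟩

/-- the square grid -/
def SqG : Set ℂ := {z | ∃ a b : ℤ, z = a + b * Complex.I}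

/-- the triangular grid with edge length one and a vertex at `0` -/
def TriG : Set ℂ := {z | ∃ a b : ℤ, z = a + b * Om}

/-- the grid `Λ` multiplied by `u` -/
def rot (u : ℂ) (Λ : Set ℂ) : Set ℂ := {z | ∃ w ∈ Λ, z = u * w}

/-- A horizontal line through a vertex never meets the relative interior of an edge which it does
not contain. The edges are the segments of length `r` between vertices. -/
def LineCond (Λ : Set ℂ) (r : ℝ) : Prop :=
  ∀ z ∈ Λ, ∀ w ∈ Λ, ∀ w' ∈ Λ, ‖w' - w‖ = r → ¬ (w.im < z.im ∧ z.im < w'.im)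

/-- self-avoiding walks with `n` steps in the closed upper half-plane, starting at `0`, with steps of
length `r` between points of `Λ`; a walk is continued by its last point -/
def PW (Λ : Set ℂ) (r : ℝ) (n : ℕ) : Set (ℕ → ℂ) :=
  {γ | γ 0 = 0 ∧ (∀ i, γ i ∈ Λ ∧ 0 ≤ (γ i).im) ∧ (∀ i < n, ‖γ (i + 1) - γ i‖ = r) ∧
    (∀ i ≤ n, ∀ j ≤ n, γ i = γ j → i = j) ∧ ∀ i, n ≤ i → γ i = γ n}

/-- `k` is a cut time of `γ`: the walk is in the closed half-plane below `γ k` up to time `k` and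
strictly above it after time `k` -/
def IsCut (γ : ℕ → ℂ) (k : ℕ) : Prop :=
  (∀ i ≤ k, (γ i).im ≤ (γ k).im) ∧ ∀ i, k < i → (γ k).im < (γ i).im

/-- the open cone of opening `90°` from the direction of `1 + c i` to the direction of `-c + i` -/
def Cone (c : ℝ) : Set ℂ := {z | c * z.re < z.im ∧ -z.re < c * z.im}

/-- `k` is a cone time of `γ`: a cut time `k ≥ 1` such that `γ 1, …, γ k` are in the cone with
vertex `0` and `γ 0, …, γ (k - 1)` in the opposite cone with vertex `γ k` -/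
def IsConeTime (c : ℝ) (γ : ℕ → ℂ) (k : ℕ) : Prop :=
  1 ≤ k ∧ IsCut γ k ∧ (∀ i, 1 ≤ i → i ≤ k → γ i ∈ Cone c) ∧ ∀ i < k, γ k - γ i ∈ Cone c

/-- **Theorem.** For the infinite half-plane self-avoiding walk (the weak limit `μ` of the uniform
measures on the `n`-step half-plane walks) on the square grid, with `c = 1`, and on the triangular
grid in each of its placements, with `c = √3`: for all `R ≥ 2` the mean number of the cone times `k`
with `|γ k| ≤ R r` (where `r` is the edge length) is at most `80 log R`. -/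
theorem result (Λ : Set ℂ) (r c : ℝ)
    (h : (Λ = SqG ∧ r = 1 ∧ c = 1) ∨
      ∃ u : ℂ, u ≠ 0 ∧ Λ = rot u TriG ∧ r = ‖u‖ ∧ LineCond Λ r ∧ c = Real.sqrt 3) :
    ∃ μ : Measure (ℕ → ℂ), IsProbabilityMeasure μ ∧
      (∀ F : BoundedContinuousFunction (ℕ → ℂ) ℝ,
        Tendsto (fun n => (∑ᶠ γ ∈ PW Λ r n, F γ) / ((PW Λ r n).ncard : ℝ)) atTop
          (𝓝 (∫ γ, F γ ∂μ))) ∧
      ∀ R : ℝ, 2 ≤ R → ∑' k : ℕ, μ {γ | IsConeTime c γ k ∧ ‖γ k‖ ≤ R * r} ≤
        ENNReal.ofReal (80 * Real.log R) := by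
  have key : Pool.Agent.L7h95.DG.ConeC Λ r c := by
    rcases h with ⟨rfl, rfl, rfl⟩ | ⟨u, hu, rfl, rfl, hl, rfl⟩
    · exact Pool.Agent.L7h95.DG.coneC_sq
    · exact Pool.Agent.L7h95.DG.coneC_tri u hu hl
  obtain ⟨μ, h1, h2, h3⟩ := key
  refine ⟨μ, h1, h2, fun R hR => le_trans (ENNReal.tsum_le_tsum fun k => measure_mono ?_) (h3 R hR)⟩
  rintro γ ⟨⟨a1, a2, a3, a4⟩, a5⟩
  exact ⟨a1, a2, a3, a4, a5⟩

end Pool.Agent.Results.MP_df1d0b_pr.ConeTimes
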