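import Pool.Agent.L7h95.LB.Tend

/-!
# The infinite half-plane self-avoiding walk on the hexagonal grid stays polynomially far from the
boundary
-/

set_option autoImplicit false

namespace Pool.Agent.Results.MP_df1d0b_pr.FarFromBoundary

open Filter Topology MeasureTheory
open scoped ENNReal

/-- `e^{iπ/3}` -/
noncomputable def Om : ℂ := ⟨1 / 2, Real.sqrt 3 / 2⟩

/-- the hexagonal grid with edge length one and a vertex at `0` (the triangular grid without the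
centres of the hexagons) -/
def HexG : Set ℂ := {z | ∃ a b : ℤ, (a - b) % 3 ≠ 2 ∧ z = a + b * Om}

/-- the grid `Λ` multiplied by `u` -/
def rot (u : ℂ) (Λ : Set ℂ) : Set ℂ := {z | ∃ w ∈ Λ, z = u * w}

/-- self-avoiding walks with `n` steps in the closed upper half-plane, starting at `0`, with steps of
length `r` between points of `Λ`; a walk is continued by its last point -/
def PW (Λ : Set ℂ) (r : ℝ) (n : ℕ) : Set (ℕ → ℂ) :=
  {γ | γ 0 = 0 ∧ (∀ i, γ i ∈ Λ ∧ 0 ≤ (γ i).im) ∧ (∀ i < n, ‖γ (i + 1) - γ i‖ = r) ∧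
    (∀ i ≤ n, ∀ j ≤ n, γ i = γ j → i = j) ∧ ∀ i, n ≤ i → γ i = γ n}

/-- **Theorem.** For the hexagonal grid of edge length `‖u‖` with a vertex at `0` and an edge at `0`
perpendicular to the real line, the infinite half-plane self-avoiding walk (the weak limit `μ` of the
uniform measures on `n`-step half-plane walks) satisfies:
(1) for all `R, h ≥ 1`, the walk visits a point at distance at least `R ‖u‖` from `0` and at distance
at most `h ‖u‖` from the real line with probability at most `10^8 h^3 R^(-0.115)`;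
(2) almost surely, `Im (γ i) ≥ |γ i|^(1/27)` for all large `i`. -/
theorem result (u : ℂ) (hu : u ≠ 0) (hv : ∃ z ∈ rot u HexG, ‖z‖ = ‖u‖ ∧ z.re = 0) :
    ∃ μ : Measure (ℕ → ℂ), IsProbabilityMeasure μ ∧
      (∀ᵐ γ ∂μ, γ 0 = 0 ∧ (∀ i, γ i ∈ rot u HexG ∧ 0 ≤ (γ i).im) ∧
        (∀ i, ‖γ (i + 1) - γ i‖ = ‖u‖) ∧ Function.Injective γ) ∧
      (∀ F : BoundedContinuousFunction (ℕ → ℂ) ℝ,
        Tendsto (fun n => (∑ᶠ γ ∈ PW (rot u HexG) ‖u‖ n, F γ) /
          ((PW (rot u HexG) ‖u‖ n).ncard : ℝ)) atTop (𝓝 (∫ γ, F γ ∂μ))) ∧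
      (∀ R h : ℝ, 1 ≤ R → 1 ≤ h → μ {γ | ∃ i : ℕ, R * ‖u‖ ≤ ‖γ i‖ ∧ (γ i).im ≤ h * ‖u‖} ≤
        ENNReal.ofReal (10 ^ 8 * h ^ 3 * R ^ (-(23 / 200) : ℝ))) ∧
      ∀ᵐ γ ∂μ, ∀ᶠ i in atTop, ‖γ i‖ ^ (1 / 27 : ℝ) ≤ (γ i).im := by
  obtain ⟨c0, hc, E, hE⟩ := Pool.Agent.W818.TD.emb_vert u hu hv
  obtain ⟨μ, h1, h2, h3, h4⟩ :=
    Pool.Agent.H976R3.HPL.concl_of_emb E Pool.Agent.H976R3.HPL.facts_hexA
  have := h1
  have hr : 0 < ‖u‖ := norm_pos_iff.2 hu
  exact ⟨μ, h1, h2, h4,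
    fun R h hR hh => Pool.Agent.L7h95.LB.low_far hc hr E hE μ h2 h3 R h hR hh,
    Pool.Agent.L7h95.LB.as_high hc hr E hE μ h2 h3⟩

end Pool.Agent.Results.MP_df1d0b_pr.FarFromBoundary
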