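import Pool.Agent.L7h95.DG.Tri

/-!
# The pieces of the infinite half-plane self-avoiding walk on the square and triangular grids have
infinite mean diameter
-/

set_option autoImplicit false

namespace Pool.Agent.Results.MP_df1d0b_pr.PieceSizes

open Filter Topology MeasureTheory
open scoped ENNReal

/-- `e^{iπ/3}` -/
noncomputable def Om : ℂ := ⟨1 / 2, Real.sqrt 3 / 2⟩

/-- the square grid -/
def SqG : Set ℂ := {z | ∃ a b : ℤ, z = a + b * Complex.I}

/-- the triangular grid with edge length one and a vertex at `0` -/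
def TriG : Set ℂ := {z | ∃ a b : ℤ, z = a + b * Om}

/-- the grid `Λ` multiplied by `u` -/
def rot (u : ℂ) (Λ : Set ℂ) : Set ℂ := {z | ∃ w ∈ Λ, z = u * w}

/-- A horizontal line through a vertex never meets the relative interior of an edge which it does
not contain. The edges are the segments of length `r` between vertices. -/
def LineCond (Λ : Set ℂ) (r : ℝ) : Prop :=
  ∀ z ∈ Λ, ∀ w ∈ Λ, ∀ w' ∈ Λ, ‖w' - w‖ = r → ¬ (w.im < z.im ∧ z.im < w'.im)

/-- self-avoiding walks with `n` steps in the closed upper half-plane, starting at `0`, with steps of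
length `r` between points of `Λ`; a walk is continued by its last point -/
def PW (Λ : Set ℂ) (r : ℝ) (n : ℕ) : Set (ℕ → ℂ) :=
  {γ | γ 0 = 0 ∧ (∀ i, γ i ∈ Λ ∧ 0 ≤ (γ i).im) ∧ (∀ i < n, ‖γ (i + 1) - γ i‖ = r) ∧
    (∀ i ≤ n, ∀ j ≤ n, γ i = γ j → i = j) ∧ ∀ i, n ≤ i → γ i = γ n}

/-- `k` is a cut time of `γ`: the walk is in the closed half-plane below `γ k` up to time `k` and
strictly above it after time `k` -/
def IsCut (γ : ℕ → ℂ) (k : ℕ) : Prop :=
  (∀ i ≤ k, (γ i).im ≤ (γ k).im) ∧ ∀ i, k < i → (γ k).im < (γ i).im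

/-- the cut times in increasing order -/
noncomputable def cutTime (γ : ℕ → ℂ) (j : ℕ) : ℕ := Nat.nth (IsCut γ) j

/-- the part of the walk between two successive cut times -/
def piece (γ : ℕ → ℂ) (j : ℕ) : Set ℂ := γ '' Set.Icc (cutTime γ j) (cutTime γ (j + 1))

/-- **Theorem.** On the square grid, and on the triangular grid in each of its placements, the
infinite half-plane self-avoiding walk (the weak limit `μ` of the uniform measures on the `n`-step
half-plane walks) has almost surely infinitely many cut times, and for each of its pieces between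
two successive cut times the mean of `min (diameter, N)` is at least `c log N`, with a constant
`c > 0`; in particular the mean diameter is infinite. -/
theorem result (Λ : Set ℂ) (r : ℝ)
    (h : (Λ = SqG ∧ r = 1) ∨ ∃ u : ℂ, u ≠ 0 ∧ Λ = rot u TriG ∧ r = ‖u‖ ∧ LineCond Λ r) :
    ∃ μ : Measure (ℕ → ℂ), IsProbabilityMeasure μ ∧
      (∀ F : BoundedContinuousFunction (ℕ → ℂ) ℝ,
        Tendsto (fun n => (∑ᶠ γ ∈ PW Λ r n, F γ) / ((PW Λ r n).ncard : ℝ)) atTop
          (𝓝 (∫ γ, F γ ∂μ))) ∧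
      (∀ᵐ γ ∂μ, {k | IsCut γ k}.Infinite) ∧
      (∃ c : ℝ, 0 < c ∧ ∀ j N : ℕ, 1 ≤ N → ENNReal.ofReal (c * Real.log N) ≤
        ∫⁻ γ, ENNReal.ofReal (min (Metric.diam (piece γ j)) N) ∂μ) ∧
      ∀ j : ℕ, ∫⁻ γ, ENNReal.ofReal (Metric.diam (piece γ j)) ∂μ = ⊤ := by
  have key : Pool.Agent.L7h95.DG.DiamC Λ r := by
    rcases h with ⟨rfl, rfl⟩ | ⟨u, hu, rfl, rfl, hl⟩
    · exact Pool.Agent.L7h95.DG.diamC_sq
    · exact Pool.Agent.L7h95.DG.diamC_tri u hu hl
  obtain ⟨μ, h1, h2, h3, c, hc, h4⟩ := key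
  refine ⟨μ, h1, h2, h3, ⟨c, hc, h4⟩, fun j => ?_⟩
  have h5 : ∀ N : ℕ, 1 ≤ N → ENNReal.ofReal (c * Real.log N) ≤
      ∫⁻ γ, ENNReal.ofReal (Metric.diam (piece γ j)) ∂μ := fun N hN =>
    (h4 j N hN).trans (lintegral_mono fun γ => ENNReal.ofReal_le_ofReal (min_le_left _ _))
  have h6 : Tendsto (fun N : ℕ => ENNReal.ofReal (c * Real.log N)) atTop (𝓝 ⊤) :=
    ENNReal.tendsto_ofReal_nhds_top.2
      ((Real.tendsto_log_atTop.comp tendsto_natCast_atTop_atTop).const_mul_atTop hc)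
  exact top_le_iff.1 (le_of_tendsto h6 ((eventually_ge_atTop 1).mono h5))

end Pool.Agent.Results.MP_df1d0b_pr.PieceSizes
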